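import Mathlib

open MeasureTheory Set Real
open scoped ENNReal

namespace Pool.Agent.Results.MP_d6da6d_an.NotExtremal

noncomputable section

/-- The Fourier transform `û(ξ) = ∫ u(x) e^{-2πiξx} dx`. -/
def hat (u : ℝ → ℂ) (ξ : ℝ) : ℂ :=
  ∫ x : ℝ, u x * Complex.exp (-(2 * π * Complex.I * ξ * x))

/-- `Φ_α(u) = ‖ξ û(ξ)‖_{L^∞}^α ‖|x|^α u‖_{L¹} / ‖u‖_{L¹}^{α+1}`, a number in `[0,∞]`. -/
def Phi (α : ℝ) (u : ℝ → ℂ) : ℝ≥0∞ :=
  eLpNorm (fun ξ : ℝ => (ξ : ℂ) * hat u ξ) ⊤ volume ^ α *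
    eLpNorm (fun x : ℝ => ((|x| ^ α : ℝ) : ℂ) * u x) 1 volume /
      eLpNorm u 1 volume ^ (α + 1)

/-- The indicator function of `[-1/2,1/2]`. -/
def chi : ℝ → ℝ := (Icc (-(1 / 2) : ℝ) (1 / 2)).indicator (fun _ => 1)

/-! ### Boxes -/

def box (r c : ℝ) : ℝ → ℝ := (Icc (c - r) (c + r)).indicator (fun _ => (1 : ℝ))

lemma box_nonneg (r c x : ℝ) : 0 ≤ box r c x := by
  unfold box; exact indicator_nonneg (fun _ _ => zero_le_one) x

lemma box_le_one (r c x : ℝ) : box r c x ≤ 1 := by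
  unfold box indicator; split_ifs <;> norm_num

lemma box_eq_one {r c x : ℝ} (h : |x - c| ≤ r) : box r c x = 1 := by
  unfold box
  rw [indicator_of_mem]
  rw [abs_le] at h
  constructor <;> linarith [h.1, h.2]

lemma box_eq_zero {r c x : ℝ} (h : r < |x - c|) : box r c x = 0 := by
  unfold box
  rw [indicator_of_notMem]
  intro hx
  have : |x - c| ≤ r := by rw [abs_le]; constructor <;> linarith [hx.1, hx.2]
  linarith

lemma box_eq_ite (r c x : ℝ) : box r c x = if |x - c| ≤ r then 1 else 0 := by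
  split_ifs with h
  · exact box_eq_one h
  · exact box_eq_zero (not_le.mp h)

lemma box_measurable (r c : ℝ) : Measurable (box r c) :=
  measurable_const.indicator measurableSet_Icc

lemma box_integrable (r c : ℝ) : Integrable (box r c) := by
  unfold box
  rw [integrable_indicator_iff measurableSet_Icc]
  exact continuousOn_const.integrableOn_Icc

lemma box_integral {r : ℝ} (hr : 0 ≤ r) (c : ℝ) : ∫ x, box r c x = 2 * r := by
  unfold box
  rw [integral_indicator measurableSet_Icc]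
  simp
  rw [max_eq_left (by linarith)]; ring

lemma mul_hat_box {r : ℝ} (hr : 0 ≤ r) (c ξ : ℝ) :
    (ξ : ℂ) * hat (fun x => (box r c x : ℂ)) ξ =
      Complex.exp (-(2 * π * Complex.I * ξ * c)) * ((Real.sin (2 * π * r * ξ) / π : ℝ) : ℂ) := by
  by_cases hξ : ξ = 0
  · subst hξ; simp
  have hA : (-(2 * π * Complex.I * ξ) : ℂ) ≠ 0 := by
    simp [Real.pi_ne_zero, hξ]
  have h1 : hat (fun x => (box r c x : ℂ)) ξ =
      ∫ x in (c - r)..(c + r), Complex.exp ((-(2 * π * Complex.I * ξ) : ℂ) * x) := by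
    unfold hat
    rw [intervalIntegral.integral_of_le (by linarith), ← integral_Icc_eq_integral_Ioc,
      ← integral_indicator measurableSet_Icc]
    congr 1
    ext x
    by_cases hx : x ∈ Icc (c - r) (c + r)
    · simp only [box, indicator, hx, if_true]
      push_cast; rw [one_mul]; congr 1; ring
    · simp only [box, indicator, hx, if_false]
      simp
  rw [h1, integral_exp_mul_complex hA]
  have e1 : Complex.exp ((-(2 * π * Complex.I * ξ) : ℂ) * ((c + r : ℝ) : ℂ)) =
      Complex.exp (-(2 * π * Complex.I * ξ * c)) *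
        Complex.exp (-((2 * π * r * ξ : ℝ) : ℂ) * Complex.I) := by
    rw [← Complex.exp_add]; congr 1; push_cast; ring
  have e2 : Complex.exp ((-(2 * π * Complex.I * ξ) : ℂ) * ((c - r : ℝ) : ℂ)) =
      Complex.exp (-(2 * π * Complex.I * ξ * c)) *
        Complex.exp (((2 * π * r * ξ : ℝ) : ℂ) * Complex.I) := by
    rw [← Complex.exp_add]; congr 1; push_cast; ring
  rw [e1, e2, Complex.exp_mul_I, Complex.exp_mul_I, Complex.cos_neg, Complex.sin_neg]
  have hpi : (π : ℂ) ≠ 0 := by exact_mod_cast Real.pi_ne_zero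
  have hξ' : (ξ : ℂ) ≠ 0 := by exact_mod_cast hξ
  rw [Complex.ofReal_div, Complex.ofReal_sin]
  field_simp
  ring

/-! ### Linearity of `hat` -/

lemma integrand_integrable {u : ℝ → ℂ} (hu : Integrable u) (ξ : ℝ) :
    Integrable (fun x : ℝ => u x * Complex.exp (-(2 * π * Complex.I * ξ * x))) := by
  refine hu.norm.mono' (hu.aestronglyMeasurable.mul ?_) ?_
  · exact (by fun_prop : Continuous fun x : ℝ =>
      Complex.exp (-(2 * π * Complex.I * ξ * x))).aestronglyMeasurable
  · filter_upwards with x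
    rw [norm_mul]
    have : -(2 * π * Complex.I * ξ * x) = ((-(2 * π * ξ * x) : ℝ) : ℂ) * Complex.I := by
      push_cast; ring
    rw [this, Complex.norm_exp_ofReal_mul_I, mul_one]

lemma hat_add {u v : ℝ → ℂ} (hu : Integrable u) (hv : Integrable v) (ξ : ℝ) :
    hat (fun x => u x + v x) ξ = hat u ξ + hat v ξ := by
  unfold hat
  rw [← integral_add (integrand_integrable hu ξ) (integrand_integrable hv ξ)]
  congr 1; ext x; ring

lemma hat_sub {u v : ℝ → ℂ} (hu : Integrable u) (hv : Integrable v) (ξ : ℝ) :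
    hat (fun x => u x - v x) ξ = hat u ξ - hat v ξ := by
  unfold hat
  rw [← integral_sub (integrand_integrable hu ξ) (integrand_integrable hv ξ)]
  congr 1; ext x; ring

lemma hat_const_mul (a : ℂ) (u : ℝ → ℂ) (ξ : ℝ) :
    hat (fun x => a * u x) ξ = a * hat u ξ := by
  unfold hat
  rw [← integral_const_mul]
  congr 1; ext x; ring

lemma hat_sum {ι : Type*} (s : Finset ι) (f : ι → ℝ → ℂ) (hf : ∀ i ∈ s, Integrable (f i)) (ξ : ℝ) :
    hat (fun x => ∑ i ∈ s, f i x) ξ = ∑ i ∈ s, hat (f i) ξ := by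
  unfold hat
  rw [← integral_finsetSum s (fun i hi => integrand_integrable (hf i hi) ξ)]
  congr 1; ext x; rw [Finset.sum_mul]

lemma ofR {f : ℝ → ℝ} (hf : Integrable f) : Integrable (fun x => (f x : ℂ)) := hf.ofReal

/-! ### Averages over lattice shifts -/

/-- Fejér average over the shifts `(i-j)h`, `0 ≤ i,j < 40`. -/
def av (h : ℝ) (f : ℝ → ℝ) : ℝ :=
  (1 / 1600) * ∑ i ∈ Finset.range 40, ∑ j ∈ Finset.range 40, f (((i : ℝ) - j) * h)

lemma av_nonneg {h : ℝ} {f : ℝ → ℝ} (hf : ∀ c, 0 ≤ f c) : 0 ≤ av h f := by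
  unfold av
  exact mul_nonneg (by norm_num) (Finset.sum_nonneg fun i _ => Finset.sum_nonneg fun j _ => hf _)

lemma av_add (h : ℝ) (f g : ℝ → ℝ) : av h (fun c => f c + g c) = av h f + av h g := by
  unfold av
  simp only [Finset.sum_add_distrib, mul_add]

lemma av_mul (h a : ℝ) (f : ℝ → ℝ) : av h (fun c => a * f c) = a * av h f := by
  unfold av
  simp only [← Finset.mul_sum]; ring

lemma shift_bound {h : ℝ} (hh : 0 ≤ h) {i j : ℕ} (hi : i ∈ Finset.range 40)
    (hj : j ∈ Finset.range 40) : |((i : ℝ) - j) * h| ≤ 39 * h := by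
  rw [Finset.mem_range] at hi hj
  have h1 : (i : ℝ) ≤ 39 := by exact_mod_cast Nat.le_of_lt_succ hi
  have h2 : (j : ℝ) ≤ 39 := by exact_mod_cast Nat.le_of_lt_succ hj
  have h3 : (0 : ℝ) ≤ i := Nat.cast_nonneg i
  have h4 : (0 : ℝ) ≤ j := Nat.cast_nonneg j
  rw [abs_mul, abs_of_nonneg hh]
  exact mul_le_mul_of_nonneg_right (abs_le.mpr ⟨by linarith, by linarith⟩) hh

lemma av_box_eq_one {h R x : ℝ} (hh : 0 ≤ h) (hx : |x| + 39 * h ≤ R) :
    av h (fun c => box R c x) = 1 := by
  unfold av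
  rw [Finset.sum_congr rfl (fun i hi => Finset.sum_congr rfl (fun j hj => ?_)) (g := fun _ => ∑ j ∈ Finset.range 40, (1:ℝ))]
  · simp; norm_num
  · apply box_eq_one
    have := shift_bound hh hi hj
    have h2 := abs_sub x (((i : ℝ) - j) * h)
    linarith

lemma av_box_eq_zero {h r x : ℝ} (hh : 0 ≤ h) (hx : r + 39 * h < |x|) :
    av h (fun c => box r c x) = 0 := by
  unfold av
  rw [Finset.sum_eq_zero, mul_zero]
  intro i hi
  apply Finset.sum_eq_zero
  intro j hj
  apply box_eq_zero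
  have := shift_bound hh hi hj
  have h2 := abs_sub_abs_le_abs_sub x (((i : ℝ) - j) * h)
  linarith

lemma av_le_one {h : ℝ} {f : ℝ → ℝ} (hf : ∀ c, f c ≤ 1) : av h f ≤ 1 := by
  unfold av
  have : ∑ i ∈ Finset.range 40, ∑ j ∈ Finset.range 40, f (((i : ℝ) - j) * h) ≤
      ∑ i ∈ Finset.range 40, ∑ j ∈ Finset.range 40, (1 : ℝ) :=
    Finset.sum_le_sum fun i _ => Finset.sum_le_sum fun j _ => hf _
  simp at this
  linarith

lemma count {h : ℝ} (hh : 0 < h) (m i : ℕ) (x : ℝ) :
    ∑ j ∈ Finset.range 40, box (m * h) (((i : ℝ) - j) * h) x ≤ 2 * m + 1 := by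
  simp only [box_eq_ite]
  rw [Finset.sum_ite, Finset.sum_const_zero, add_zero, Finset.sum_const, nsmul_eq_mul, mul_one]
  set y : ℝ := i - x / h with hy
  have hsub : ((Finset.range 40).filter fun j : ℕ => |x - ((i : ℝ) - j) * h| ≤ m * h).image
      (fun j : ℕ => (j : ℤ)) ⊆ Finset.Icc ⌈y - m⌉ ⌊y + m⌋ := by
    intro z hz
    rw [Finset.mem_image] at hz
    obtain ⟨j, hj, rfl⟩ := hz
    rw [Finset.mem_filter] at hj
    have h1 := abs_le.mp hj.2
    rw [Finset.mem_Icc, Int.ceil_le, Int.le_floor]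
    have hx : x = (i - y) * h := by rw [hy]; field_simp; ring
    have e1 : x - ((i : ℝ) - j) * h = (j - y) * h := by rw [hx]; ring
    rw [e1] at h1
    push_cast
    constructor
    · by_contra hc
      push Not at hc
      nlinarith [h1.1]
    · by_contra hc
      push Not at hc
      nlinarith [h1.2]
  have hcard := Finset.card_le_card hsub
  rw [Finset.card_image_of_injective _ Nat.cast_injective, Int.card_Icc] at hcard
  have h3 : ⌊y + m⌋ + 1 - ⌈y - m⌉ ≤ 2 * m + 1 := by
    rw [Int.floor_add_natCast, Int.ceil_sub_natCast]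
    have := Int.floor_le_ceil y
    linarith
  have h4 : (⌊y + m⌋ + 1 - ⌈y - m⌉).toNat ≤ 2 * m + 1 := by
    rw [Int.toNat_le]; push_cast; exact h3
  exact_mod_cast hcard.trans h4

lemma av_box_le {h : ℝ} (hh : 0 < h) (m : ℕ) (x : ℝ) :
    av h (fun c => box (m * h) c x) ≤ (2 * m + 1) / 40 := by
  unfold av
  have : ∑ i ∈ Finset.range 40, ∑ j ∈ Finset.range 40, box (m * h) (((i : ℝ) - j) * h) x ≤
      ∑ i ∈ Finset.range 40, (2 * (m : ℝ) + 1) :=
    Finset.sum_le_sum fun i _ => count hh m i x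
  rw [Finset.sum_const, Finset.card_range, nsmul_eq_mul] at this
  push_cast at this
  linarith

lemma integrable_av {h : ℝ} (f : ℝ → ℝ → ℝ) (hf : ∀ c, Integrable (f c)) :
    Integrable (fun x => av h (fun c => f c x)) := by
  unfold av
  exact (integrable_finsetSum _ fun i _ => integrable_finsetSum _ fun j _ => hf _).const_mul _

lemma integral_av {h I : ℝ} (f : ℝ → ℝ → ℝ) (hf : ∀ c, Integrable (f c))
    (hI : ∀ c, ∫ x, f c x = I) : ∫ x, av h (fun c => f c x) = I := by
  unfold av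
  rw [integral_const_mul, integral_finsetSum _ fun i _ => integrable_finsetSum _ fun j _ => hf _]
  rw [Finset.sum_congr rfl (fun i hi => integral_finsetSum _ fun j _ => hf _)]
  simp only [hI]
  simp
  ring

/-! ### The competitor -/

/-- The fine structure. -/
def gg (h c : ℝ) (x : ℝ) : ℝ := 7 / 8 * box h c x + 1 / 4 * box (2 * h) c x

/-- The competitor. -/
def uu (h : ℝ) (x : ℝ) : ℝ :=
  av h (fun c => box (1 / 2 - 39 * h) c x) + av h (fun c => gg h c x) - gg h 0 x

lemma gg_nonneg (h c x : ℝ) : 0 ≤ gg h c x := by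
  unfold gg
  have := box_nonneg h c x
  have := box_nonneg (2 * h) c x
  positivity

lemma gg_integrable (h c : ℝ) : Integrable (gg h c) :=
  ((box_integrable h c).const_mul _).add ((box_integrable (2 * h) c).const_mul _)

lemma gg_integral {h : ℝ} (hh : 0 ≤ h) (c : ℝ) : ∫ x, gg h c x = 11 / 4 * h := by
  unfold gg
  rw [integral_add ((box_integrable h c).const_mul _) ((box_integrable (2 * h) c).const_mul _),
    integral_const_mul, integral_const_mul, box_integral hh, box_integral (by linarith)]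
  ring

lemma uu_integrable (h : ℝ) : Integrable (uu h) :=
  ((integrable_av _ fun c => box_integrable _ c).add (integrable_av _ fun c => gg_integrable h c)).sub
    (gg_integrable h 0)

/-- the sine polynomial of the fine structure -/
def ss (h ξ : ℝ) : ℝ := 7 / 8 * Real.sin (2 * π * h * ξ) + 1 / 4 * Real.sin (2 * π * (2 * h) * ξ)

lemma ss_abs_le (h ξ : ℝ) : |ss h ξ| ≤ 1 := by
  have e : ss h ξ = Real.sin (2 * π * h * ξ) * (7 / 8 + Real.cos (2 * π * h * ξ) / 2) := by
    unfold ss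
    rw [show 2 * π * (2 * h) * ξ = 2 * (2 * π * h * ξ) by ring, Real.sin_two_mul]; ring
  rw [e]
  set c := Real.cos (2 * π * h * ξ)
  set s := Real.sin (2 * π * h * ξ)
  have hs : s ^ 2 = 1 - c ^ 2 := by
    have := Real.sin_sq_add_cos_sq (2 * π * h * ξ); linarith
  have h1 : (s * (7 / 8 + c / 2)) ^ 2 ≤ 1 ^ 2 := by
    rw [mul_pow, hs]
    nlinarith [sq_nonneg (c ^ 2 / 2 + 7 * c / 8 - 2 / 5), sq_nonneg (c - 7 / 12)]
  exact abs_le_of_sq_le_sq h1 zero_le_one

lemma mul_hat_gg {h : ℝ} (hh : 0 ≤ h) (c ξ : ℝ) :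
    (ξ : ℂ) * hat (fun x => (gg h c x : ℂ)) ξ =
      Complex.exp (-(2 * π * Complex.I * ξ * c)) * ((ss h ξ / π : ℝ) : ℂ) := by
  have e : (fun x => (gg h c x : ℂ)) =
      fun x => ((7 / 8 : ℂ) * (box h c x : ℂ)) + ((1 / 4 : ℂ) * (box (2 * h) c x : ℂ)) := by
    ext x; unfold gg; push_cast; ring
  have i1 : Integrable (fun x => (7 / 8 : ℂ) * (box h c x : ℂ)) :=
    (ofR (box_integrable h c)).const_mul _
  have i2 : Integrable (fun x => (1 / 4 : ℂ) * (box (2 * h) c x : ℂ)) :=
    (ofR (box_integrable (2 * h) c)).const_mul _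
  rw [e, hat_add i1 i2, hat_const_mul, hat_const_mul, mul_add, mul_left_comm, mul_hat_box hh,
    mul_left_comm (ξ : ℂ), mul_hat_box (by linarith)]
  unfold ss
  push_cast
  ring

lemma mul_hat_av {h : ℝ} (f : ℝ → ℝ → ℝ) (hf : ∀ c, Integrable (f c)) (ξ S : ℝ)
    (hS : ∀ c : ℝ, (ξ : ℂ) * hat (fun x => (f c x : ℂ)) ξ =
      Complex.exp (-(2 * π * Complex.I * ξ * c)) * (S : ℂ)) :
    (ξ : ℂ) * hat (fun x => (av h (fun c => f c x) : ℂ)) ξ =
      ((Complex.normSq (∑ i ∈ Finset.range 40, Complex.exp (-(2 * π * Complex.I * ξ * (i * h)))) /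
        1600 * S : ℝ) : ℂ) := by
  have e : (fun x => (av h (fun c => f c x) : ℂ)) = fun x => (1 / 1600 : ℂ) *
      ∑ i ∈ Finset.range 40, ∑ j ∈ Finset.range 40, (f (((i : ℝ) - j) * h) x : ℂ) := by
    ext x; unfold av; push_cast; ring
  have i1 : ∀ i j : ℕ, Integrable (fun x => (f (((i : ℝ) - j) * h) x : ℂ)) :=
    fun i j => ofR (hf _)
  have i2 : ∀ i : ℕ, Integrable (fun x => ∑ j ∈ Finset.range 40, (f (((i : ℝ) - j) * h) x : ℂ)) :=
    fun i => integrable_finsetSum _ fun j _ => i1 i j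
  rw [e, hat_const_mul, hat_sum (Finset.range 40)
    (fun (i : ℕ) x => ∑ j ∈ Finset.range 40, (f (((i : ℝ) - j) * h) x : ℂ)) (fun i _ => i2 i)]
  rw [Finset.sum_congr rfl (fun (i : ℕ) _ => hat_sum (Finset.range 40)
    (fun (j : ℕ) x => (f (((i : ℝ) - j) * h) x : ℂ)) (fun j _ => i1 i j) ξ)]
  rw [mul_left_comm, Finset.mul_sum]
  simp only [Finset.mul_sum, hS]
  have key : ∀ i j : ℕ, Complex.exp (-(2 * π * Complex.I * ξ * ((((i : ℝ) - j) * h : ℝ) : ℂ))) =
      Complex.exp (-(2 * π * Complex.I * ξ * (i * h))) *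
        (starRingEnd ℂ) (Complex.exp (-(2 * π * Complex.I * ξ * (j * h)))) := by
    intro i j
    rw [← Complex.exp_conj, ← Complex.exp_add]
    congr 1
    simp only [map_neg, map_mul, Complex.conj_I, Complex.conj_ofReal, map_natCast, map_ofNat]
    push_cast
    ring
  simp only [key]
  push_cast
  rw [← Complex.mul_conj, map_sum, Finset.sum_mul_sum]
  simp only [Finset.sum_mul, Finset.sum_div]
  refine Finset.sum_congr rfl fun i _ => Finset.sum_congr rfl fun j _ => ?_
  ring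

lemma kappa_le (h ξ : ℝ) :
    Complex.normSq (∑ i ∈ Finset.range 40, Complex.exp (-(2 * π * Complex.I * ξ * (i * h)))) /
        1600 ≤ 1 := by
  rw [Complex.normSq_eq_norm_sq, div_le_one (by norm_num)]
  have h1 : ‖∑ i ∈ Finset.range 40, Complex.exp (-(2 * π * Complex.I * ξ * ((i : ℕ) * h)))‖ ≤
      ∑ i ∈ Finset.range 40, (1 : ℝ) := by
    refine norm_sum_le_of_le _ fun i _ => ?_
    have : -(2 * π * Complex.I * ξ * ((i : ℕ) * h)) =
        ((-(2 * π * ξ * (i * h)) : ℝ) : ℂ) * Complex.I := by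
      push_cast; ring
    rw [this, Complex.norm_exp_ofReal_mul_I]
  simp at h1
  nlinarith [norm_nonneg (∑ i ∈ Finset.range 40,
    Complex.exp (-(2 * π * Complex.I * ξ * ((i : ℕ) * h))))]

lemma norm_mul_hat_uu {h : ℝ} (hh : 0 ≤ h) (hR : 39 * h ≤ 1 / 2) (ξ : ℝ) :
    ‖(ξ : ℂ) * hat (fun x => (uu h x : ℂ)) ξ‖ ≤ 1 / π := by
  have e : (fun x => (uu h x : ℂ)) = fun x =>
      ((av h (fun c => box (1 / 2 - 39 * h) c x) : ℂ) + (av h (fun c => gg h c x) : ℂ)) -
        (gg h 0 x : ℂ) := by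
    ext x; unfold uu; push_cast; ring
  have i1 := ofR (integrable_av (h := h) _ fun c => box_integrable (1 / 2 - 39 * h) c)
  have i2 := ofR (integrable_av (h := h) _ fun c => gg_integrable h c)
  have i3 := ofR (gg_integrable h 0)
  have i12 : Integrable (fun x => (av h (fun c => box (1 / 2 - 39 * h) c x) : ℂ) +
    (av h (fun c => gg h c x) : ℂ)) := i1.add i2
  rw [e, hat_sub i12 i3, hat_add i1 i2, mul_sub, mul_add,
    mul_hat_av _ (fun c => box_integrable _ c) ξ _ (fun c => mul_hat_box (by linarith) c ξ),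
    mul_hat_av _ (fun c => gg_integrable h c) ξ _ (fun c => mul_hat_gg hh c ξ), mul_hat_gg hh]
  set κ := Complex.normSq (∑ i ∈ Finset.range 40,
    Complex.exp (-(2 * π * Complex.I * ξ * (i * h)))) / 1600 with hκ
  have k1 : κ ≤ 1 := kappa_le h ξ
  have k0 : 0 ≤ κ := div_nonneg (Complex.normSq_nonneg _) (by norm_num)
  have hs := ss_abs_le h ξ
  have ht := Real.abs_sin_le_one (2 * π * (1 / 2 - 39 * h) * ξ)
  set s := ss h ξ
  set t := Real.sin (2 * π * (1 / 2 - 39 * h) * ξ)
  have e2 : ((κ * (t / π) : ℝ) : ℂ) + ((κ * (s / π) : ℝ) : ℂ) -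
      Complex.exp (-(2 * π * Complex.I * ξ * ((0 : ℝ) : ℂ))) * ((s / π : ℝ) : ℂ) =
      (((κ * t - (1 - κ) * s) / π : ℝ) : ℂ) := by
    simp
    ring
  rw [e2, Complex.norm_real, Real.norm_eq_abs, abs_div, abs_of_pos Real.pi_pos]
  apply div_le_div_of_nonneg_right _ Real.pi_pos.le
  rw [abs_le] at hs ht ⊢
  constructor <;> nlinarith [hs.1, hs.2, ht.1, ht.2]

/-! ### Pointwise facts -/

lemma av_gg_le {h : ℝ} (hh : 0 < h) (x : ℝ) : av h (fun c => gg h c x) ≤ 31 / 320 := by
  unfold gg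
  rw [av_add, av_mul, av_mul]
  have h1 := av_box_le hh 1 x
  have h2 := av_box_le hh 2 x
  norm_num at h1 h2
  linarith

lemma av_gg_nonneg (h x : ℝ) : 0 ≤ av h (fun c => gg h c x) :=
  av_nonneg fun c => gg_nonneg h c x

lemma av_gg_eq_zero {h x : ℝ} (hh : 0 ≤ h) (hx : 41 * h < |x|) :
    av h (fun c => gg h c x) = 0 := by
  unfold gg
  rw [av_add, av_mul, av_mul, av_box_eq_zero hh (by linarith), av_box_eq_zero hh (by linarith)]
  norm_num

/-- negative in the middle -/
lemma uu_mid {h x : ℝ} (hh : 0 < h) (hs : 400 * h ≤ 1) (hx : |x| ≤ h) : uu h x ≤ -(9 / 320) := by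
  have h1 := av_gg_le hh x
  have h2 : av h (fun c => box (1 / 2 - 39 * h) c x) = 1 := av_box_eq_one hh.le (by linarith)
  have h3 : gg h 0 x = 9 / 8 := by
    unfold gg
    rw [box_eq_one (by rw [sub_zero]; exact hx), box_eq_one (by rw [sub_zero]; linarith)]
    norm_num
  unfold uu
  rw [h2, h3]; linarith

lemma uu_ring {h x : ℝ} (hh : 0 < h) (hs : 400 * h ≤ 1) (hx : h < |x|) (hx2 : |x| ≤ 2 * h) :
    3 / 4 ≤ uu h x := by
  have h1 := av_gg_nonneg h x
  have h2 : av h (fun c => box (1 / 2 - 39 * h) c x) = 1 := av_box_eq_one hh.le (by linarith)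
  have h3 : gg h 0 x = 1 / 4 := by
    unfold gg
    rw [box_eq_zero (by rw [sub_zero]; exact hx), box_eq_one (by rw [sub_zero]; linarith)]
    norm_num
  unfold uu
  rw [h2, h3]; linarith

lemma gg_zero {h x : ℝ} (hh : 0 < h) (hx : 2 * h < |x|) : gg h 0 x = 0 := by
  unfold gg
  rw [box_eq_zero (by rw [sub_zero]; linarith), box_eq_zero (by rw [sub_zero]; linarith)]
  norm_num

lemma av_box_pos {h x : ℝ} (hh : 0 < h) (hs : 400 * h ≤ 1) (hx : |x| ≤ 1 / 2) :
    1 / 1600 ≤ av h (fun c => box (1 / 2 - 39 * h) c x) := by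
  have key : ∀ i ∈ Finset.range 40, ∀ j ∈ Finset.range 40,
      |x - ((i : ℝ) - (j : ℝ)) * h| ≤ 1 / 2 - 39 * h →
      1 / 1600 ≤ av h (fun c => box (1 / 2 - 39 * h) c x) := by
    intro i hi j hj hij
    unfold av
    have h1 : (1 : ℝ) ≤ ∑ i ∈ Finset.range 40, ∑ j ∈ Finset.range 40,
        box (1 / 2 - 39 * h) (((i : ℝ) - j) * h) x := by
      calc (1 : ℝ) = box (1 / 2 - 39 * h) (((i : ℝ) - j) * h) x := (box_eq_one hij).symm
        _ ≤ ∑ j ∈ Finset.range 40, box (1 / 2 - 39 * h) (((i : ℝ) - j) * h) x :=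
            Finset.single_le_sum (f := fun j : ℕ => box (1 / 2 - 39 * h) (((i : ℝ) - j) * h) x)
              (fun j _ => box_nonneg _ _ _) hj
        _ ≤ _ := Finset.single_le_sum
              (f := fun i : ℕ => ∑ j ∈ Finset.range 40, box (1 / 2 - 39 * h) (((i : ℝ) - j) * h) x)
              (fun i _ => Finset.sum_nonneg fun j _ => box_nonneg _ _ _) hi
    linarith
  have hx' := abs_le.mp hx
  rcases le_total 0 x with h0 | h0
  · refine key 39 (by simp) 0 (by simp) ?_
    push_cast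
    rw [abs_le]; constructor <;> linarith [hx'.1, hx'.2]
  · refine key 0 (by simp) 39 (by simp) ?_
    push_cast
    rw [abs_le]; constructor <;> linarith [hx'.1, hx'.2]

lemma uu_out {h x : ℝ} (hh : 0 < h) (hs : 400 * h ≤ 1) (hx : 2 * h < |x|) (hx2 : |x| ≤ 1 / 2) :
    1 / 1600 ≤ uu h x := by
  have h1 := av_gg_nonneg h x
  have h2 := av_box_pos hh hs hx2
  unfold uu
  rw [gg_zero hh hx]; linarith

lemma uu_zero {h x : ℝ} (hh : 0 < h) (hs : 400 * h ≤ 1) (hx : 1 / 2 < |x|) : uu h x = 0 := by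
  unfold uu
  rw [av_box_eq_zero hh.le (by linarith), av_gg_eq_zero hh.le (by linarith),
    gg_zero hh (by linarith)]
  norm_num

lemma uu_abs_pos {h x : ℝ} (hh : 0 < h) (hs : 400 * h ≤ 1) (hx2 : |x| ≤ 1 / 2) :
    1 / 1600 ≤ |uu h x| := by
  rcases le_or_gt |x| h with h1 | h1
  · have := uu_mid hh hs h1
    rw [abs_of_neg (by linarith)]; linarith
  · rcases le_or_gt |x| (2 * h) with h2 | h2
    · have := uu_ring hh hs h1 h2
      rw [abs_of_pos (by linarith)]; linarith
    · have := uu_out hh hs h2 hx2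
      rw [abs_of_pos (by linarith)]; linarith

lemma uu_abs_ge {h x : ℝ} (hh : 0 < h) (hs : 400 * h ≤ 1) :
    av h (fun c => box (1 / 2 - 39 * h) c x) + av h (fun c => gg h c x) - gg h 0 x +
      9 / 160 * box h 0 x ≤ |uu h x| := by
  rcases le_or_gt |x| h with h1 | h1
  · have := uu_mid hh hs h1
    rw [abs_of_neg (by linarith), box_eq_one (by rw [sub_zero]; exact h1)]
    unfold uu at this ⊢; linarith
  · rw [box_eq_zero (by rw [sub_zero]; exact h1)]
    have := le_abs_self (uu h x)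
    unfold uu at this ⊢; linarith

lemma uu_abs_le {h x : ℝ} (hh : 0 < h) (hs : 400 * h ≤ 1) : |uu h x| ≤ 3 := by
  have h1 : av h (fun c => box (1 / 2 - 39 * h) c x) ≤ 1 := av_le_one fun c => box_le_one _ _ _
  have h2 : 0 ≤ av h (fun c => box (1 / 2 - 39 * h) c x) := av_nonneg fun c => box_nonneg _ _ _
  have h3 := av_gg_nonneg h x
  have h4 := av_gg_le hh x
  have h5 := gg_nonneg h 0 x
  have h6 : gg h 0 x ≤ 9 / 8 := by
    unfold gg
    have := box_le_one h 0 x
    have := box_le_one (2 * h) 0 x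
    linarith
  unfold uu
  rw [abs_le]; constructor <;> linarith

/-- The main pointwise inequality. -/
lemma pointwise {α h : ℝ} (hα : 0 < α) (hh : 0 < h) (hs : 400 * h ≤ 1) (x : ℝ) :
    box (1 / 2 - 78 * h) 0 x * (1 - |2 * x| ^ α) +
      (1 - (82 * h) ^ α) * av h (fun c => gg h c x) - gg h 0 x +
      9 / 160 * (1 - (2 * h) ^ α) * box h 0 x ≤ |uu h x| * (1 - |2 * x| ^ α) := by
  rcases lt_or_ge (1 / 2) |x| with hx | hx
  · rw [uu_zero hh hs hx, av_gg_eq_zero hh.le (by linarith), gg_zero hh (by linarith),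
      box_eq_zero (by rw [sub_zero]; linarith), box_eq_zero (by rw [sub_zero]; linarith)]
    simp
  have hw0 : 0 ≤ 1 - |2 * x| ^ α := by
    rw [sub_nonneg]
    apply Real.rpow_le_one (abs_nonneg _) _ hα.le
    rw [abs_mul, abs_of_pos (by norm_num : (0:ℝ) < 2)]; linarith
  have hw1 : 1 - |2 * x| ^ α ≤ 1 := by
    have := Real.rpow_nonneg (abs_nonneg (2 * x)) α
    linarith
  set w := 1 - |2 * x| ^ α with hw
  have h1 := mul_le_mul_of_nonneg_right (uu_abs_ge (x := x) hh hs) hw0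
  have h2 : box (1 / 2 - 78 * h) 0 x ≤ av h (fun c => box (1 / 2 - 39 * h) c x) := by
    rw [box_eq_ite]
    split_ifs with hc
    · rw [sub_zero] at hc
      rw [av_box_eq_one hh.le (by linarith)]
    · exact av_nonneg fun c => box_nonneg _ _ _
  have h2' := mul_le_mul_of_nonneg_right h2 hw0
  have h3 : (1 - (82 * h) ^ α) * av h (fun c => gg h c x) ≤ av h (fun c => gg h c x) * w := by
    rcases lt_or_ge (41 * h) |x| with hc | hc
    · rw [av_gg_eq_zero hh.le hc]; simp
    · rw [mul_comm]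
      apply mul_le_mul_of_nonneg_left _ (av_gg_nonneg h x)
      rw [hw]
      have : |2 * x| ^ α ≤ (82 * h) ^ α := by
        apply Real.rpow_le_rpow (abs_nonneg _) _ hα.le
        rw [abs_mul, abs_of_pos (by norm_num : (0:ℝ) < 2)]; linarith
      linarith
  have h4 : gg h 0 x * w ≤ gg h 0 x := by
    have := mul_le_mul_of_nonneg_left hw1 (gg_nonneg h 0 x)
    linarith
  have h5 : (1 - (2 * h) ^ α) * box h 0 x ≤ box h 0 x * w := by
    rcases lt_or_ge h |x| with hc | hc
    · rw [box_eq_zero (by rw [sub_zero]; exact hc)]; simp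
    · rw [box_eq_one (by rw [sub_zero]; exact hc), mul_one, one_mul, hw]
      have : |2 * x| ^ α ≤ (2 * h) ^ α := by
        apply Real.rpow_le_rpow (abs_nonneg _) _ hα.le
        rw [abs_mul, abs_of_pos (by norm_num : (0:ℝ) < 2)]; linarith
      linarith
  nlinarith [h1, h2', h3, h4, h5]

/-! ### Integrals -/

lemma integral_Icc_abs_rpow {α r : ℝ} (hα : 0 < α) (hr : 0 ≤ r) :
    ∫ x in (-r)..r, |2 * x| ^ α = (2 * r) ^ (α + 1) / (α + 1) := by
  have hint : ∀ a b : ℝ, IntervalIntegrable (fun x : ℝ => |2 * x| ^ α) volume a b := fun a b =>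
    ((continuous_abs.comp (continuous_const.mul continuous_id)).rpow_const
      (fun x => Or.inr hα.le)).intervalIntegrable a b
  rw [← intervalIntegral.integral_add_adjacent_intervals (hint (-r) 0) (hint 0 r)]
  have h1 : ∫ x in (-r)..0, |2 * x| ^ α = ∫ x in (0:ℝ)..r, |2 * x| ^ α := by
    have := intervalIntegral.integral_comp_neg (a := 0) (b := r) (fun x : ℝ => |2 * x| ^ α)
    simp only [mul_neg, abs_neg, neg_zero] at this
    exact this.symm
  have h2 : ∫ x in (0:ℝ)..r, |2 * x| ^ α = ∫ x in (0:ℝ)..r, 2 ^ α * x ^ α := by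
    apply intervalIntegral.integral_congr
    intro x hx
    rw [uIcc_of_le hr] at hx
    simp only
    rw [abs_of_nonneg (by linarith [hx.1]), Real.mul_rpow (by norm_num) hx.1]
  rw [h1, h2, intervalIntegral.integral_const_mul, integral_rpow (Or.inl (by linarith)),
    Real.zero_rpow (by linarith), sub_zero, Real.mul_rpow (by norm_num) hr,
    Real.rpow_add (by norm_num : (0:ℝ) < 2) α 1, Real.rpow_one]
  ring

lemma integral_box_w {α r : ℝ} (hα : 0 < α) (hr : 0 ≤ r) :
    ∫ x, box r 0 x * (1 - |2 * x| ^ α) = 2 * r - (2 * r) ^ (α + 1) / (α + 1) := by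
  have e : (fun x => box r 0 x * (1 - |2 * x| ^ α)) =
      (Icc (-r) r).indicator (fun x => 1 - |2 * x| ^ α) := by
    ext x
    unfold box
    rw [zero_sub, zero_add]
    by_cases hx : x ∈ Icc (-r) r
    · rw [indicator_of_mem hx, indicator_of_mem hx, one_mul]
    · rw [indicator_of_notMem hx, indicator_of_notMem hx, zero_mul]
  rw [e, integral_indicator measurableSet_Icc, integral_Icc_eq_integral_Ioc,
    ← intervalIntegral.integral_of_le (by linarith)]
  have hint : IntervalIntegrable (fun x : ℝ => |2 * x| ^ α) volume (-r) r :=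
    ((continuous_abs.comp (continuous_const.mul continuous_id)).rpow_const
      (fun x => Or.inr hα.le)).intervalIntegrable _ _
  rw [intervalIntegral.integral_sub (by simp) hint, integral_Icc_abs_rpow hα hr]
  simp
  ring

lemma box_w_integrable {α r : ℝ} (hα : 0 < α) :
    Integrable (fun x => box r 0 x * (1 - |2 * x| ^ α)) := by
  have e : (fun x => box r 0 x * (1 - |2 * x| ^ α)) =
      (Icc (-r) r).indicator (fun x => 1 - |2 * x| ^ α) := by
    ext x
    unfold box
    rw [zero_sub, zero_add]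
    by_cases hx : x ∈ Icc (-r) r
    · rw [indicator_of_mem hx, indicator_of_mem hx, one_mul]
    · rw [indicator_of_notMem hx, indicator_of_notMem hx, zero_mul]
  rw [e, integrable_indicator_iff measurableSet_Icc]
  apply ContinuousOn.integrableOn_Icc
  exact (continuous_const.sub ((continuous_abs.comp (continuous_const.mul continuous_id)).rpow_const
      (fun x => Or.inr hα.le))).continuousOn

lemma pow_integrable {α : ℝ} (hα : 0 < α) {u : ℝ → ℝ} (hu : Integrable u)
    (h0 : ∀ x, 1 / 2 < |x| → u x = 0) : Integrable (fun x => |x| ^ α * u x) := by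
  refine hu.norm.mono' ?_ ?_
  · exact (continuous_abs.rpow_const (fun x => Or.inr hα.le)).aestronglyMeasurable.mul
      hu.aestronglyMeasurable
  · filter_upwards with x
    rcases lt_or_ge (1 / 2) |x| with hx | hx
    · rw [h0 x hx]; simp
    · rw [norm_mul, Real.norm_eq_abs, abs_of_nonneg (Real.rpow_nonneg (abs_nonneg x) α)]
      have : |x| ^ α ≤ 1 := Real.rpow_le_one (abs_nonneg x) (by linarith) hα.le
      have h2 := mul_le_mul_of_nonneg_right this (norm_nonneg (u x))
      linarith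

lemma w_eq (α : ℝ) (u x : ℝ) : |u| * (1 - |2 * x| ^ α) = |u| - 2 ^ α * (|x| ^ α * |u|) := by
  rw [abs_mul, abs_of_pos (by norm_num : (0:ℝ) < 2), Real.mul_rpow (by norm_num) (abs_nonneg x)]
  ring

lemma main_lower {α h : ℝ} (hα : 0 < α) (hh : 0 < h) (hs : 400 * h ≤ 1) :
    (1 - 156 * h) - (1 - 156 * h) ^ (α + 1) / (α + 1) - 11 / 4 * h * (82 * h) ^ α +
      9 / 80 * h * (1 - (2 * h) ^ α) ≤ ∫ x, |uu h x| * (1 - |2 * x| ^ α) := by
  have ib := integrable_av (h := h) _ fun c => gg_integrable h c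
  have i1 : Integrable (fun x => box (1 / 2 - 78 * h) 0 x * (1 - |2 * x| ^ α)) :=
    box_w_integrable hα
  have i2 : Integrable (fun x => (1 - (82 * h) ^ α) * av h (fun c => gg h c x)) := ib.const_mul _
  have i3 := gg_integrable h 0
  have i4 : Integrable (fun x => 9 / 160 * (1 - (2 * h) ^ α) * box h 0 x) :=
    (box_integrable h 0).const_mul _
  have i12 : Integrable (fun x => box (1 / 2 - 78 * h) 0 x * (1 - |2 * x| ^ α) +
      (1 - (82 * h) ^ α) * av h (fun c => gg h c x)) := i1.add i2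
  have i123 : Integrable (fun x => box (1 / 2 - 78 * h) 0 x * (1 - |2 * x| ^ α) +
      (1 - (82 * h) ^ α) * av h (fun c => gg h c x) - gg h 0 x) := i12.sub i3
  have i5 : Integrable (fun x => |uu h x| * (1 - |2 * x| ^ α)) := by
    simp only [w_eq]
    refine (uu_integrable h).abs.sub (Integrable.const_mul ?_ _)
    exact pow_integrable hα (uu_integrable h).abs
      (fun x hx => by rw [uu_zero hh hs hx, abs_zero])
  have hmono := integral_mono (i123.add i4) i5 (fun x => pointwise hα hh hs x)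
  simp only [Pi.add_apply] at hmono
  rw [integral_add i123 i4, integral_sub i12 i3, integral_add i1 i2, integral_const_mul,
    integral_const_mul, integral_box_w hα (by linarith), gg_integral hh.le,
    integral_av _ (fun c => gg_integrable h c) (fun c => gg_integral hh.le c),
    box_integral hh.le, show 2 * (1 / 2 - 78 * h) = 1 - 156 * h by ring] at hmono
  linarith

lemma G_lower {α ρ : ℝ} (hα : 0 < α) (h0 : 0 < ρ) (h1 : ρ ≤ 1) :
    α / (α + 1) - (1 - ρ) * (1 - ρ ^ α) ≤ ρ - ρ ^ (α + 1) / (α + 1) := by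
  have hb := one_add_mul_self_le_rpow_one_add (s := ρ⁻¹ - 1) (p := α + 1)
    (by have := inv_pos.mpr h0; linarith) (by linarith)
  rw [add_sub_cancel, Real.inv_rpow h0.le] at hb
  have hp : 0 < ρ ^ (α + 1) := Real.rpow_pos_of_pos h0 _
  have h3 := mul_le_mul_of_nonneg_left hb hp.le
  rw [mul_inv_cancel₀ hp.ne'] at h3
  have h4 : ρ ^ (α + 1) = ρ ^ α * ρ := by rw [Real.rpow_add h0, Real.rpow_one]
  have h5 : ρ ^ (α + 1) * (1 + (α + 1) * (ρ⁻¹ - 1)) =
      ρ ^ (α + 1) + (α + 1) * (ρ ^ α * (1 - ρ)) := by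
    rw [h4]; field_simp
  rw [h5] at h3
  have hα1 : 0 < α + 1 := by linarith
  have h6 : ρ ^ (α + 1) / (α + 1) + ρ ^ α * (1 - ρ) ≤ 1 / (α + 1) := by
    rw [div_add' _ _ _ hα1.ne', div_le_div_iff_of_pos_right hα1]
    linarith
  have h7 : α / (α + 1) = 1 - 1 / (α + 1) := by field_simp; ring
  rw [h7]; nlinarith

lemma exists_small {α : ℝ} (hα : 0 < α) (η : ℝ) (hη : 0 < η) : ∃ h : ℝ, 0 < h ∧ 400 * h ≤ 1 ∧
    h < η ∧ 0 < 9 / 80 * (1 - (2 * h) ^ α) - 11 / 4 * (82 * h) ^ α -
      156 * (1 - (1 - 156 * h) ^ α) := by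
  have hc : ContinuousAt (fun h : ℝ => 9 / 80 * (1 - (2 * h) ^ α) - 11 / 4 * (82 * h) ^ α -
      156 * (1 - (1 - 156 * h) ^ α)) 0 := by
    have c1 : Continuous fun h : ℝ => (2 * h) ^ α :=
      (by fun_prop : Continuous fun h : ℝ => 2 * h).rpow_const fun _ => Or.inr hα.le
    have c2 : Continuous fun h : ℝ => (82 * h) ^ α :=
      (by fun_prop : Continuous fun h : ℝ => 82 * h).rpow_const fun _ => Or.inr hα.le
    have c3 : Continuous fun h : ℝ => (1 - 156 * h) ^ α :=
      (by fun_prop : Continuous fun h : ℝ => 1 - 156 * h).rpow_const fun _ => Or.inr hα.le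
    exact (by fun_prop : Continuous (fun h : ℝ => 9 / 80 * (1 - (2 * h) ^ α) -
      11 / 4 * (82 * h) ^ α - 156 * (1 - (1 - 156 * h) ^ α))).continuousAt
  have h0 : (0 : ℝ) < 9 / 80 * (1 - (2 * (0:ℝ)) ^ α) - 11 / 4 * (82 * (0:ℝ)) ^ α -
      156 * (1 - (1 - 156 * (0:ℝ)) ^ α) := by
    simp only [mul_zero, sub_zero, Real.one_rpow, Real.zero_rpow hα.ne']
    norm_num
  have hev := hc.eventually (lt_mem_nhds h0)
  have hev2 := (hev.filter_mono nhdsWithin_le_nhds : ∀ᶠ h in nhdsWithin (0:ℝ) (Ioi 0), _)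
  have hev3 : ∀ᶠ h in nhdsWithin (0:ℝ) (Ioi 0), h ∈ Ioo (0:ℝ) (min (1/400) η) :=
    Ioo_mem_nhdsGT (by positivity)
  obtain ⟨h, hA, hB⟩ := (hev2.and hev3).exists
  refine ⟨h, hB.1, ?_, ?_, hA⟩
  · have := hB.2.trans_le (min_le_left _ _); linarith
  · exact hB.2.trans_le (min_le_right _ _)

lemma chi_eq_box : chi = box (1 / 2) 0 := by
  unfold chi box
  norm_num

lemma uu_sub_chi {h : ℝ} (hh : 0 < h) (hs : 400 * h ≤ 1) :
    ∫ x, |uu h x - chi x| ≤ 84 * h := by
  have i0 := box_integrable (1 / 2) 0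
  have i1 := integrable_av (h := h) _ fun c => box_integrable (1 / 2 - 39 * h) c
  have i2 := integrable_av (h := h) _ fun c => gg_integrable h c
  have i3 := gg_integrable h 0
  have i01 : Integrable (fun x => box (1 / 2) 0 x - av h (fun c => box (1 / 2 - 39 * h) c x)) :=
    i0.sub i1
  have i012 : Integrable (fun x => box (1 / 2) 0 x - av h (fun c => box (1 / 2 - 39 * h) c x) +
    av h (fun c => gg h c x)) := i01.add i2
  have hle : ∀ x, |uu h x - chi x| ≤ box (1 / 2) 0 x -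
      av h (fun c => box (1 / 2 - 39 * h) c x) + av h (fun c => gg h c x) + gg h 0 x := by
    intro x
    rw [chi_eq_box]
    have h1 : av h (fun c => box (1 / 2 - 39 * h) c x) ≤ box (1 / 2) 0 x := by
      rcases lt_or_ge (1 / 2) |x| with hx | hx
      · rw [av_box_eq_zero hh.le (by linarith)]; exact box_nonneg _ _ _
      · rw [box_eq_one (r := 1 / 2) (c := 0) (by rw [sub_zero]; exact hx)]
        exact av_le_one fun c => box_le_one _ _ _
    have h2 := av_gg_nonneg h x
    have h3 := gg_nonneg h 0 x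
    unfold uu
    rw [abs_le]; constructor <;> linarith
  have hmono := integral_mono (((uu_integrable h).sub (chi_eq_box ▸ i0)).abs) (i012.add i3) hle
  simp only [Pi.add_apply, Pi.sub_apply] at hmono
  rw [integral_add i012 i3, integral_add i01 i2, integral_sub i0 i1, box_integral (by norm_num),
    integral_av _ (fun c => gg_integrable h c) (fun c => gg_integral hh.le c),
    integral_av _ (fun c => box_integrable _ c) (fun c => box_integral (by linarith) c),
    gg_integral hh.le] at hmono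
  linarith

/-! ### From the linear inequality to `Φ` -/

lemma hat_continuous {u : ℝ → ℂ} (hu : Integrable u) : Continuous (hat u) := by
  unfold hat
  apply continuous_of_dominated (bound := fun x => ‖u x‖)
  · intro ξ; exact (integrand_integrable hu ξ).aestronglyMeasurable
  · intro ξ
    filter_upwards with x
    rw [norm_mul]
    have : -(2 * π * Complex.I * ξ * x) = ((-(2 * π * ξ * x) : ℝ) : ℂ) * Complex.I := by
      push_cast; ring
    rw [this, Complex.norm_exp_ofReal_mul_I, mul_one]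
  · exact hu.norm
  · filter_upwards with x
    fun_prop

lemma le_sup_chi : ENNReal.ofReal (1 / π) ≤
    eLpNorm (fun ξ : ℝ => (ξ : ℂ) * hat (fun x => (chi x : ℂ)) ξ) ⊤ volume := by
  rw [chi_eq_box]
  set f : ℝ → ℂ := fun ξ : ℝ => (ξ : ℂ) * hat (fun x => (box (1 / 2) 0 x : ℂ)) ξ with hf
  have hfc : Continuous f := by
    have := hat_continuous (ofR (box_integrable (1 / 2) 0))
    exact Complex.continuous_ofReal.mul this
  rw [eLpNorm_exponent_top]
  by_contra hlt
  push Not at hlt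
  have hae := ae_le_eLpNormEssSup (f := f) (μ := volume)
  have hval : ‖f (1 / 2)‖ₑ = ENNReal.ofReal (1 / π) := by
    have := mul_hat_box (r := 1 / 2) (by norm_num) 0 (1 / 2)
    simp only [hf]
    rw [this]
    rw [← ofReal_norm]
    congr 1
    rw [show 2 * π * (1 / 2) * (1 / 2) = π / 2 by ring, Real.sin_pi_div_two]
    simp [abs_of_pos Real.pi_pos]
  have hopen : IsOpen {ξ : ℝ | eLpNormEssSup f volume < ‖f ξ‖ₑ} :=
    isOpen_lt continuous_const hfc.enorm
  have hzero : volume {ξ : ℝ | eLpNormEssSup f volume < ‖f ξ‖ₑ} = 0 := by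
    rw [ae_iff] at hae
    convert hae using 3
    simp
  have := (hopen.measure_eq_zero_iff volume).mp hzero
  have hmem : (1 / 2 : ℝ) ∈ {ξ : ℝ | eLpNormEssSup f volume < ‖f ξ‖ₑ} := by
    simp only [mem_ofPred_eq, hval]; exact hlt
  rw [this] at hmem
  exact hmem

lemma eLpNorm_one_real {u : ℝ → ℝ} (hu : Integrable u) :
    eLpNorm (fun x => (u x : ℂ)) 1 volume = ENNReal.ofReal (∫ x, |u x|) := by
  rw [eLpNorm_one_eq_lintegral_enorm, ← ofReal_integral_norm_eq_lintegral_enorm (ofR hu)]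
  simp

lemma eLpNorm_pow_real {α : ℝ} {u : ℝ → ℝ} (hu : Integrable (fun x => |x| ^ α * u x)) :
    eLpNorm (fun x : ℝ => ((|x| ^ α : ℝ) : ℂ) * (u x : ℂ)) 1 volume =
      ENNReal.ofReal (∫ x, |x| ^ α * |u x|) := by
  have e : (fun x : ℝ => ((|x| ^ α : ℝ) : ℂ) * (u x : ℂ)) =
      fun x => ((|x| ^ α * u x : ℝ) : ℂ) := by ext x; push_cast; ring
  rw [e, eLpNorm_one_real hu]
  congr 2
  ext x
  rw [abs_mul, abs_of_nonneg (Real.rpow_nonneg (abs_nonneg x) α)]

lemma chi_pow_integral {α : ℝ} (hα : 0 < α) :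
    ∫ x, |x| ^ α * |chi x| = 1 / (2 ^ α * (α + 1)) := by
  have hb := box_integrable (1 / 2) 0
  have h1 := integral_box_w (r := 1 / 2) hα (by norm_num)
  have e : (fun x => box (1 / 2) 0 x * (1 - |2 * x| ^ α)) =
      fun x => |box (1 / 2) 0 x| - 2 ^ α * (|x| ^ α * |box (1 / 2) 0 x|) := by
    ext x
    rw [← w_eq, abs_of_nonneg (box_nonneg _ _ _)]
  have hi : Integrable (fun x => |x| ^ α * |box (1 / 2) 0 x|) :=
    pow_integrable hα hb.abs (fun x hx => by rw [box_eq_zero (by rw [sub_zero]; exact hx), abs_zero])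
  rw [e, integral_sub hb.abs (hi.const_mul _), integral_const_mul] at h1
  have h2 : ∫ x, |box (1 / 2) 0 x| = 1 := by
    simp only [abs_of_nonneg (box_nonneg _ _ _)]
    rw [box_integral (by norm_num)]; norm_num
  rw [h2] at h1
  norm_num at h1
  rw [chi_eq_box, eq_div_iff (by positivity)]
  have hα1 : α + 1 ≠ 0 := by linarith
  field_simp at h1
  linarith

lemma Phi_lt {α : ℝ} (hα : 0 < α) {u : ℝ → ℝ} (hu : Integrable u)
    (h0 : ∀ x, 1 / 2 < |x| → u x = 0)
    (hF : ∀ ξ : ℝ, ‖(ξ : ℂ) * hat (fun x => (u x : ℂ)) ξ‖ ≤ 1 / π)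
    (hJ : α / (α + 1) < ∫ x, |u x| * (1 - |2 * x| ^ α)) :
    Phi α (fun x => (u x : ℂ)) < Phi α (fun x => (chi x : ℂ)) := by
  have hα1 : 0 < α + 1 := by linarith
  have hp := pow_integrable hα hu h0
  have hpa := pow_integrable hα hu.abs (fun x hx => by rw [h0 x hx, abs_zero])
  set I0 := ∫ x, |u x| with hI0
  set I1 := ∫ x, |x| ^ α * |u x| with hI1
  have hJ' : α / (α + 1) < I0 - 2 ^ α * I1 := by
    have : ∫ x, |u x| * (1 - |2 * x| ^ α) = I0 - 2 ^ α * I1 := by
      simp only [w_eq]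
      rw [integral_sub hu.abs (hpa.const_mul _), integral_const_mul]
    rw [← this]; exact hJ
  have hI1n : 0 ≤ I1 := integral_nonneg fun x => by positivity
  have h2a : (0:ℝ) < 2 ^ α := Real.rpow_pos_of_pos (by norm_num) α
  have hI0p : 0 < I0 := by
    have : 0 < α / (α + 1) := div_pos hα hα1
    nlinarith [mul_nonneg h2a.le hI1n]
  have hb := one_add_mul_self_le_rpow_one_add (s := I0 - 1) (p := α + 1) (by linarith) (by linarith)
  rw [add_sub_cancel] at hb
  have hkey : I1 / I0 ^ (α + 1) < 1 / (2 ^ α * (α + 1)) := by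
    rw [div_lt_div_iff₀ (Real.rpow_pos_of_pos hI0p _) (by positivity)]
    rw [div_lt_iff₀ hα1] at hJ'
    nlinarith
  have hpi : (0:ℝ) < 1 / π := by positivity
  have hchi : ENNReal.ofReal ((1 / π) ^ α * (1 / (2 ^ α * (α + 1)))) ≤
      Phi α (fun x => (chi x : ℂ)) := by
    unfold Phi
    have hcb := chi_eq_box ▸ box_integrable (1 / 2) 0
    rw [eLpNorm_one_real hcb, eLpNorm_pow_real (pow_integrable hα hcb (fun x hx => by
      rw [chi_eq_box, box_eq_zero (by rw [sub_zero]; exact hx)])), chi_pow_integral hα]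
    have : ∫ x, |chi x| = 1 := by
      rw [chi_eq_box]
      simp only [abs_of_nonneg (box_nonneg _ _ _)]
      rw [box_integral (by norm_num)]; norm_num
    rw [this, ENNReal.ofReal_one, ENNReal.one_rpow, div_one,
      ENNReal.ofReal_mul (by positivity), ← ENNReal.ofReal_rpow_of_nonneg hpi.le hα.le]
    gcongr
    exact le_sup_chi
  refine lt_of_lt_of_le ?_ hchi
  unfold Phi
  rw [eLpNorm_one_real hu, eLpNorm_pow_real hp]
  have hsup : eLpNorm (fun ξ : ℝ => (ξ : ℂ) * hat (fun x => (u x : ℂ)) ξ) ⊤ volume ≤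
      ENNReal.ofReal (1 / π) := by
    rw [eLpNorm_exponent_top]
    exact eLpNormEssSup_le_of_ae_bound (Filter.Eventually.of_forall hF)
  calc eLpNorm (fun ξ : ℝ => (ξ : ℂ) * hat (fun x => (u x : ℂ)) ξ) ⊤ volume ^ α *
        ENNReal.ofReal (∫ x, |x| ^ α * |u x|) / ENNReal.ofReal (∫ x, |u x|) ^ (α + 1)
      ≤ ENNReal.ofReal (1 / π) ^ α * ENNReal.ofReal I1 / ENNReal.ofReal I0 ^ (α + 1) := by
        gcongr
    _ = ENNReal.ofReal ((1 / π) ^ α * (I1 / I0 ^ (α + 1))) := by
        rw [ENNReal.ofReal_rpow_of_nonneg hpi.le hα.le, ENNReal.ofReal_rpow_of_nonneg hI0p.le hα1.le,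
          ← ENNReal.ofReal_mul (by positivity),
          ← ENNReal.ofReal_div_of_pos (Real.rpow_pos_of_pos hI0p _), mul_div_assoc]
    _ < ENNReal.ofReal ((1 / π) ^ α * (1 / (2 ^ α * (α + 1)))) := by
        rw [ENNReal.ofReal_lt_ofReal_iff (by positivity)]
        exact mul_lt_mul_of_pos_left hkey (Real.rpow_pos_of_pos hpi _)

end

/-- **Main theorem.** For every real `α > 0` (in particular for every `α ≥ 2`) the indicator
function `χ` of `[-1/2,1/2]` is not an extremizer of `Φ_α`, and not even a local minimizer for the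
`L¹` norm: for every `η > 0` there is a real-valued integrable `u`, vanishing outside
`[-1/2,1/2]`, with `|u| ≥ δ > 0` at every point of `[-1/2,1/2]`, with `‖u - χ‖_{L¹} < η`, and with
`Φ_α(u) < Φ_α(χ)`. -/
theorem result (α : ℝ) (hα : 0 < α) (η : ℝ) (hη : 0 < η) :
    ∃ u : ℝ → ℝ, Integrable u ∧
      (∀ x, x ∉ Icc (-(1 / 2) : ℝ) (1 / 2) → u x = 0) ∧
      (∃ δ : ℝ, 0 < δ ∧ ∀ x ∈ Icc (-(1 / 2) : ℝ) (1 / 2), δ ≤ |u x|) ∧
      ∫ x, |u x - chi x| < η ∧
      Phi α (fun x => (u x : ℂ)) < Phi α (fun x => (chi x : ℂ)) := by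
  obtain ⟨h, hh, hs, hhη, hB⟩ := exists_small hα (η / 84) (by positivity)
  have h0 : ∀ x, 1 / 2 < |x| → uu h x = 0 := fun x hx => uu_zero hh hs hx
  refine ⟨uu h, uu_integrable h, ?_, ⟨1 / 1600, by norm_num, ?_⟩, ?_, ?_⟩
  · intro x hx
    apply h0
    by_contra hc
    push Not at hc
    exact hx ⟨(abs_le.mp hc).1, (abs_le.mp hc).2⟩
  · intro x hx
    exact uu_abs_pos hh hs (abs_le.mpr ⟨hx.1, hx.2⟩)
  · have := uu_sub_chi hh hs
    linarith
  · apply Phi_lt hα (uu_integrable h) h0 (norm_mul_hat_uu hh.le (by linarith))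
    refine lt_of_lt_of_le ?_ (main_lower hα hh hs)
    have hG := G_lower hα (ρ := 1 - 156 * h) (by linarith) (by linarith)
    have := mul_pos hh hB
    nlinarith


end Pool.Agent.Results.MP_d6da6d_an.NotExtremal
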